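import Mathlib
import Pool.Agent.H42.MetRetract

set_option autoImplicit false

namespace Pool.Agent.Results.MP_8669a5_al.Retract

/-- The free metabelian group on a set: the free group modulo its second derived subgroup. -/
abbrev FreeMetabelian (X : Type) : Type := FreeGroup X ⧸ derivedSeries (FreeGroup X) 2

/-- The free metabelian group of countably infinite rank has an idempotent endomorphism whose
image (a retract, hence a projective metabelian group) is not isomorphic to the free metabelian
group on any set. -/
theorem result : ∃ r : FreeMetabelian ℕ →* FreeMetabelian ℕ, (∀ m, r (r m) = r m) ∧
    ∀ X : Type, IsEmpty (r.range ≃* FreeMetabelian X) :=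
  Pool.Agent.H42.Met.retract_main

end Pool.Agent.Results.MP_8669a5_al.Retract
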